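import Pool.Agent.H37.CNP.Stmts

/-!
# Row TRM: total ramification
-/

set_option autoImplicit false

namespace Pool.CND

open Finset Matrix

theorem trm_thm (hRMX : S_RMX) (hTOT : S_TOT) (hSLX : S_SLX) : S_TRM := by
  intro p k L G _ _ _ _ _ P ρ A x hp hρ hA hx0 hxneg hAx hfix hJ
  classical
  -- orders of `1` and inverses
  have ord_one : P.ord 1 = 0 := by
    have := P.ord_const 1 one_ne_zero
    rwa [map_one] at this
  have ord_inv : P.ord x⁻¹ = -P.ord x := by
    have := P.ord_mul x x⁻¹ hx0 (inv_ne_zero hx0)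
    rw [mul_inv_cancel₀ hx0, ord_one] at this
    linarith
  -- the subgroup of elements of `A` fixing the place
  let J : Subgroup G :=
    { carrier := {g | g ∈ A ∧ Fixes P (ρ g)}
      mul_mem' := by
        rintro a b ⟨ha, ha'⟩ ⟨hb, hb'⟩
        refine ⟨A.mul_mem ha hb, fun z hz => ?_⟩
        rw [map_mul]
        change P.ord (ρ a (ρ b z)) = P.ord z
        rw [ha' _ ((map_ne_zero _).mpr hz), hb' _ hz]
      one_mem' := ⟨A.one_mem, fun z _ => by rw [map_one]; rfl⟩
      inv_mem' := by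
        rintro a ⟨ha, ha'⟩
        refine ⟨A.inv_mem ha, fun z hz => ?_⟩
        have h1 : ρ a (ρ a⁻¹ z) = z := by
          change (ρ a * ρ a⁻¹) z = z
          rw [← map_mul, mul_inv_cancel, map_one]
          rfl
        have h2 := ha' (ρ a⁻¹ z) ((map_ne_zero _).mpr hz)
        rw [h1] at h2
        exact h2.symm }
  have hJmem : ∀ g, g ∈ J ↔ g ∈ A ∧ Fixes P (ρ g) := fun g => Iff.rfl
  have hJA : J ≤ A := fun g hg => ((hJmem g).mp hg).1
  obtain ⟨w, hw0, hwA, hwJ⟩ := hRMX k L G P ρ A J hJmem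
  obtain ⟨e, he⟩ : ∃ e : ℕ, P.ord x⁻¹ = (e : ℤ) := by
    rw [ord_inv]
    exact ⟨(-P.ord x).toNat, by rw [Int.toNat_of_nonneg (by linarith)]⟩
  have he1 : 1 ≤ e := by
    rw [ord_inv] at he
    omega
  have hxe : P.ord x = -(e : ℤ) := by
    rw [ord_inv] at he
    linarith
  have hmem : w ∈ IntermediateField.adjoin k {x⁻¹} := by
    have h1 : IntermediateField.adjoin k {x} ≤ IntermediateField.adjoin k {x⁻¹} := by
      rw [IntermediateField.adjoin_simple_le_iff]
      have h2 := IntermediateField.mem_adjoin_simple_self k x⁻¹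
      have h3 := (IntermediateField.adjoin k {x⁻¹}).inv_mem h2
      rwa [inv_inv] at h3
    exact h1 (hfix w hwA)
  have hdiv : (e : ℤ) ∣ (Nat.card J : ℤ) := by
    have := (hSLX k L P x⁻¹ e he1 (inv_ne_zero hx0) he w hmem hw0).1
    rwa [hwJ] at this
  have hdiv' : (Nat.card J : ℤ) ∣ (e : ℤ) := by
    have := hTOT k L G P ρ J hρ (fun n hn => ((hJmem n).mp hn).2) x hx0
      (fun n hn => hAx n (hJA hn))
    rw [hxe] at this
    exact (dvd_neg.mp this)
  have heJ : e = Nat.card J :=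
    Nat.dvd_antisymm (by exact_mod_cast hdiv) (by exact_mod_cast hdiv')
  have hJeq : J = A := by
    by_contra hne
    obtain ⟨y, D, hD, hy0, hyJ, hyD⟩ := hJ J hJA hne
    have h1 := hTOT k L G P ρ J hρ (fun n hn => ((hJmem n).mp hn).2) y hy0 hyJ
    obtain ⟨t, ht⟩ := h1
    rw [hxe, ← heJ, ] at *
    have h2 : (p : ℤ) * t = -(D : ℤ) := by
      have he0 : (e : ℤ) ≠ 0 := by
        have : (1 : ℤ) ≤ (e : ℤ) := by exact_mod_cast he1
        omega
      have h3 : (e : ℤ) * ((p : ℤ) * t) = (e : ℤ) * (-(D : ℤ)) := by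
        rw [ht] at hyD
        linarith [hyD]
      exact mul_left_cancel₀ he0 h3
    apply hD
    have h4 : (p : ℤ) ∣ (D : ℤ) := ⟨-t, by linarith⟩
    exact_mod_cast h4
  refine ⟨fun a ha => ?_, ?_⟩
  · rw [← hJeq] at ha
    exact ((hJmem a).mp ha).2
  · rw [hxe, heJ, hJeq]

end Pool.CND
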